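import Pool.Agent.Helper212.Nabla.Comb2

open Cardinal Set Ordinal

namespace Helper212.Nabla

/-- `[M]^{≤ℵ₁}` has a cofinal family of size at most `2^ℵ₀` -/
def Cv (M : Type) : Prop := ∃ 𝒮 : Set (Set M), #𝒮 ≤ 𝔠 ∧ (∀ S ∈ 𝒮, #S ≤ ℵ₁) ∧
  ∀ T : Set M, #T ≤ ℵ₁ → ∃ S ∈ 𝒮, T ⊆ S

lemma cv_small {M : Type} (h : #M ≤ ℵ₁) : Cv M := by
  refine ⟨{Set.univ}, ?_, ?_, fun T _ => ⟨Set.univ, rfl, Set.subset_univ T⟩⟩
  · rw [Cardinal.mk_singleton]
    exact (Cardinal.one_le_aleph0).trans Cardinal.aleph0_le_continuum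
  · rintro S hS
    rw [Set.mem_singleton_iff] at hS
    rw [hS, Cardinal.mk_univ]; exact h

lemma cv_union {M J : Type} [Countable J] (Ms : J → Set M) (hM : ∀ m, ∃ j, m ∈ Ms j)
    (h : ∀ j, Cv (Ms j)) : Cv M := by
  choose 𝒮 h1 h2 h3 using h
  refine ⟨Set.range fun s : (∀ j, 𝒮 j) => ⋃ j, Subtype.val '' (s j).1, ?_, ?_, ?_⟩
  · refine Cardinal.mk_range_le.trans ?_
    rw [Cardinal.mk_pi]
    refine (Cardinal.prod_le_prod _ (fun _ => 𝔠) h1).trans ?_
    rw [Cardinal.prod_const']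
    calc 𝔠 ^ #J ≤ 𝔠 ^ ℵ₀ :=
          Cardinal.power_le_power_left Cardinal.continuum_ne_zero Cardinal.mk_le_aleph0
      _ = 𝔠 := Cardinal.continuum_power_aleph0
  · rintro _ ⟨s, rfl⟩
    refine Cardinal.mk_iUnion_le_sum_mk.trans ?_
    refine (Cardinal.sum_le_sum _ (fun _ => ℵ₁) fun j =>
      Cardinal.mk_image_le.trans (h2 j _ (s j).2)).trans ?_
    rw [Cardinal.sum_const']
    calc #J * ℵ₁ ≤ ℵ₁ * ℵ₁ := by
          gcongr
          exact Cardinal.mk_le_aleph0.trans Cardinal.aleph0_lt_aleph_one.le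
      _ = ℵ₁ := Cardinal.mul_eq_self Cardinal.aleph0_lt_aleph_one.le
  · intro T hT
    have h4 : ∀ j, ∃ S ∈ 𝒮 j, {m : Ms j | (m : M) ∈ T} ⊆ S := by
      intro j
      apply h3 j
      refine le_trans ?_ hT
      exact Cardinal.mk_preimage_of_injective (Subtype.val : Ms j → M) T Subtype.val_injective
    choose s hs1 hs2 using h4
    refine ⟨_, ⟨fun j => ⟨s j, hs1 j⟩, rfl⟩, ?_⟩
    intro m hm
    obtain ⟨j, hj⟩ := hM m
    exact Set.mem_iUnion.2 ⟨j, ⟨m, hj⟩, hs2 j hm, rfl⟩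

lemma cv_bdd {M : Type} [LinearOrder M] (hM : #M ≤ 𝔠) (h : ∀ m : M, Cv (Set.Iio m))
    (hb : ∀ T : Set M, #T ≤ ℵ₁ → ∃ m, T ⊆ Set.Iio m) : Cv M := by
  choose 𝒮 h1 h2 h3 using h
  refine ⟨Set.range fun s : (Σ m, 𝒮 m) => (Subtype.val '' s.2.1 : Set M), ?_, ?_, ?_⟩
  · refine Cardinal.mk_range_le.trans ?_
    rw [Cardinal.mk_sigma]
    refine (Cardinal.sum_le_sum _ (fun _ => 𝔠) h1).trans ?_
    rw [Cardinal.sum_const']
    calc #M * 𝔠 ≤ 𝔠 * 𝔠 := by gcongr
      _ = 𝔠 := Cardinal.continuum_mul_self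
  · rintro _ ⟨s, rfl⟩
    exact Cardinal.mk_image_le.trans (h2 _ _ s.2.2)
  · intro T hT
    obtain ⟨m, hm⟩ := hb T hT
    obtain ⟨S, hS, h4⟩ := h3 m {x : Set.Iio m | (x : M) ∈ T} (by
      refine le_trans ?_ hT
      exact Cardinal.mk_preimage_of_injective (Subtype.val : Set.Iio m → M) T
        Subtype.val_injective)
    refine ⟨_, ⟨⟨m, S, hS⟩, rfl⟩, ?_⟩
    intro x hx
    exact ⟨⟨x, hm hx⟩, h4 hx, rfl⟩

theorem cv_of_lt : ∀ i : Ordinal.{0}, i < ω_ 1 → ∀ M : Type, #M ≤ ℵ_ i → #M ≤ 𝔠 → Cv M := by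
  intro i
  induction i using Ordinal.limitRecOn with
  | zero =>
    intro _ M hM _
    rw [Cardinal.aleph_zero] at hM
    exact cv_small (hM.trans Cardinal.aleph0_lt_aleph_one.le)
  | add_one j ih =>
    intro hj M hM hMc
    by_cases hs : #M ≤ ℵ₁
    · exact cv_small hs
    by_cases hMj : #M ≤ ℵ_ j
    · exact ih (lt_trans (lt_add_one j) hj) M hMj hMc
    have h1 : ℵ_ (j + 1) = Order.succ (ℵ_ j) := (Cardinal.succ_aleph j).symm
    have h2 : ℵ₁ ≤ ℵ_ j := by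
      rw [not_le] at hs
      have := hs.trans_le hM
      rw [h1] at this
      exact Order.lt_succ_iff.1 this
    obtain ⟨lo, wf, ho⟩ := Cardinal.exists_ord_eq_type_lt M
    have h3 : ∀ m : M, #(Set.Iio m) ≤ ℵ_ j := by
      intro m
      have := (Cardinal.mk_Iio_lt m ho).trans_le hM
      rw [h1] at this
      exact Order.lt_succ_iff.1 this
    refine cv_bdd hMc (fun m => ih (lt_trans (lt_add_one j) hj) _ (h3 m)
      ((Cardinal.mk_set_le _).trans hMc)) fun T hT => ?_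
    by_contra hcon
    push Not at hcon
    apply hMj
    have h4 : (Set.univ : Set M) ⊆ ⋃ t : T, Set.Iic (t : M) := by
      intro m _
      obtain ⟨t, ht, htm⟩ := Set.not_subset.1 (hcon m)
      exact Set.mem_iUnion.2 ⟨⟨t, ht⟩, not_lt.1 htm⟩
    have h5 : ∀ t : T, #(Set.Iic (t : M)) ≤ ℵ_ j := by
      intro t
      have : Set.Iic (t : M) = insert (t : M) (Set.Iio (t : M)) := by
        ext x
        simp only [Set.mem_Iic, Set.mem_insert_iff, Set.mem_Iio]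
        exact le_iff_eq_or_lt
      rw [this]
      refine Cardinal.mk_insert_le.trans ?_
      calc #(Set.Iio (t : M)) + 1 ≤ ℵ_ j + 1 := by gcongr; exact h3 t
        _ = ℵ_ j := Cardinal.add_one_eq (Cardinal.aleph0_le_aleph j)
    calc #M = #(Set.univ : Set M) := Cardinal.mk_univ.symm
      _ ≤ #(⋃ t : T, Set.Iic (t : M)) := Cardinal.mk_le_mk_of_subset h4
      _ ≤ Cardinal.sum fun t : T => #(Set.Iic (t : M)) := Cardinal.mk_iUnion_le_sum_mk
      _ ≤ Cardinal.sum fun _ : T => ℵ_ j := Cardinal.sum_le_sum _ _ h5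
      _ = #T * ℵ_ j := by rw [Cardinal.sum_const']
      _ ≤ ℵ_ j * ℵ_ j := by gcongr; exact hT.trans h2
      _ = ℵ_ j := Cardinal.mul_eq_self (Cardinal.aleph0_le_aleph j)
  | limit i hi ih =>
    intro hiw M hM hMc
    classical
    have hcount : Countable i.ToType := by
      rw [← Cardinal.mk_le_aleph0_iff, Cardinal.mk_toType]
      have h1 : i.card < ℵ₁ := by
        rw [← Cardinal.lt_ord, Cardinal.ord_aleph]; exact hiw
      rw [← Cardinal.succ_aleph0] at h1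
      exact Order.lt_succ_iff.1 h1
    let ty : i.ToType → Ordinal.{0} := fun a => (Ordinal.ToType.mk.symm a : Set.Iio i).1
    have hty : ∀ a, ty a < i := fun a => (Ordinal.ToType.mk.symm a : Set.Iio i).2
    have hsum : #M ≤ Cardinal.sum fun a : i.ToType => ℵ_ (ty a) := by
      by_contra hlt
      rw [not_le] at hlt
      have h1 := hlt.trans_le hM
      rw [Cardinal.aleph_limit hi] at h1
      obtain ⟨⟨j, hj⟩, h2⟩ := exists_lt_of_lt_ciSup' h1
      obtain ⟨a, ha⟩ : ∃ a : i.ToType, ty a = j := by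
        refine ⟨Ordinal.ToType.mk ⟨j, hj⟩, ?_⟩
        change (Ordinal.ToType.mk.symm (Ordinal.ToType.mk ⟨j, hj⟩) : Set.Iio i).1 = j
        rw [OrderIso.symm_apply_apply]
      have h3 : ℵ_ (ty a) ≤ Cardinal.sum fun a : i.ToType => ℵ_ (ty a) :=
        Cardinal.le_sum (fun a : i.ToType => ℵ_ (ty a)) a
      rw [ha] at h3
      exact absurd (lt_of_lt_of_le h2 h3) (lt_irrefl _)
    let X : i.ToType → Type := fun a => (ℵ_ (ty a)).out
    have hX : ∀ a, #(X a) = ℵ_ (ty a) := fun a => Cardinal.mk_out _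
    have hsum' : #M ≤ #(Σ a : i.ToType, X a) := by
      rw [Cardinal.mk_sigma]
      simp only [hX]
      exact hsum
    obtain ⟨ι⟩ := hsum'
    refine cv_union (J := i.ToType) (fun a => {m | (ι m).1 = a}) (fun m => ⟨_, rfl⟩) fun a => ?_
    refine ih (ty a) (hty a) ((hty a).trans hiw) _ ?_ ((Cardinal.mk_set_le _).trans hMc)
    rw [← hX a]
    have h5 : {m | (ι m).1 = a} ⊆ ι ⁻¹' (Set.range (Sigma.mk (β := X) a)) := by
      intro m hm
      rw [Set.range_sigmaMk]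
      exact hm
    exact (Cardinal.mk_le_mk_of_subset h5).trans
      ((Cardinal.mk_preimage_of_injective _ _ ι.injective).trans Cardinal.mk_range_le)

end Helper212.Nabla
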