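import Pool.Agent.Helper212.Nabla.Defs

open Cardinal Set

namespace Helper212.Nabla

section order

variable {W : Type} [LinearOrder W] [WellFoundedLT W]

/-- `W` looks like `ω₁`. -/
structure W1 (W : Type) [LinearOrder W] [WellFoundedLT W] : Prop where
  hc : ∀ a : W, (Set.Iio a).Countable
  hu : ¬ (Set.univ : Set W).Countable

lemma W1.iic (h : W1 W) (a : W) : (Set.Iic a).Countable := by
  have : Set.Iic a = Set.Iio a ∪ {a} := by
    ext x
    simp only [Set.mem_Iic, Set.mem_union, Set.mem_Iio, Set.mem_singleton_iff]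
    exact le_iff_lt_or_eq
  rw [this]
  exact (h.hc a).union (Set.countable_singleton a)

lemma W1.bdd (h : W1 W) {C : Set W} (hC : C.Countable) : ∃ b, ∀ c ∈ C, c < b := by
  by_contra hcon
  push Not at hcon
  apply h.hu
  have : (⋃ c ∈ C, Set.Iic c).Countable := hC.biUnion fun c _ => h.iic c
  refine this.mono ?_
  intro b _
  obtain ⟨c, hc, hbc⟩ := hcon b
  exact Set.mem_biUnion hc hbc

lemma W1.big (h : W1 W) {A : Set W} (hA : ¬ A.Countable) (b : W) : ∃ a ∈ A, b < a := by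
  by_contra hcon
  push Not at hcon
  exact hA ((h.iic b).mono fun a ha => hcon a ha)

/-- enumerations of initial segments -/
lemma W1.enum (h : W1 W) : ∃ e : W → W → ℕ, ∀ b, Set.InjOn (e b) (Set.Iio b) := by
  have : ∀ b : W, ∃ e : W → ℕ, Set.InjOn e (Set.Iio b) := fun b =>
    Set.countable_iff_exists_injOn.1 (h.hc b)
  choose e he using this
  exact ⟨e, he⟩

/-- For every `φ : ω₁ → ω₁` there is `g : ω₁ → ω` injective on each interval
`(α, φ α)`. -/
lemma W1.inj (h : W1 W) (φ : W → W) :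
    ∃ g : W → ℕ, ∀ α, Set.InjOn g (Set.Ioo α (φ α)) := by
  obtain ⟨e, he⟩ := h.enum
  -- closing off
  have hu : ∀ x : W, ∃ b, (∀ y ≤ x, φ y < b) ∧ x < b := by
    intro x
    obtain ⟨b, hb⟩ := h.bdd (((h.iic x).image φ).union (Set.countable_singleton x))
    exact ⟨b, fun y hy => hb _ (Or.inl ⟨y, hy, rfl⟩), hb _ (Or.inr rfl)⟩
  choose u hu1 hu2 using hu
  have hclose : ∀ α : W, ∃ δ, α < δ ∧ ∀ x < δ, φ x < δ := by
    intro α
    let d : ℕ → W := fun k => Nat.rec (u α) (fun _ y => u y) k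
    have hd : ∀ k, d (k + 1) = u (d k) := fun k => rfl
    obtain ⟨b, hb⟩ := h.bdd (Set.countable_range d)
    let T : Set W := {c | ∀ k, d k < c}
    have hT : T.Nonempty := ⟨b, fun k => hb _ ⟨k, rfl⟩⟩
    let δ := WellFounded.min wellFounded_lt T hT
    have hδ : δ ∈ T := WellFounded.min_mem wellFounded_lt T hT
    refine ⟨δ, lt_trans (hu2 α) (hδ 0), fun x hx => ?_⟩
    have hx' : x ∉ T := fun hc => WellFounded.not_lt_min wellFounded_lt T hc hx
    have : ∃ k, x ≤ d k := by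
      by_contra hcon
      push Not at hcon
      exact hx' hcon
    obtain ⟨k, hk⟩ := this
    exact lt_trans (hu1 (d k) x hk) (by rw [← hd]; exact hδ (k + 1))
  let S : W → Set W := fun β => {δ | β < δ ∧ ∀ x < δ, φ x < δ}
  have hS : ∀ β, (S β).Nonempty := fun β => hclose β
  let s : W → W := fun β => WellFounded.min wellFounded_lt (S β) (hS β)
  have hs : ∀ β, s β ∈ S β := fun β => WellFounded.min_mem wellFounded_lt (S β) (hS β)
  have hmin : ∀ β δ, δ ∈ S β → s β ≤ δ := fun β δ hδ =>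
    not_lt.1 (WellFounded.not_lt_min wellFounded_lt (S β) hδ)
  have hss : ∀ α β, β ∈ Set.Ioo α (φ α) → s β = s α ∧ β < s α := by
    rintro α β ⟨h1, h2⟩
    have h3 : β < s α := lt_trans h2 ((hs α).2 α (hs α).1)
    refine ⟨le_antisymm (hmin β _ ⟨h3, (hs α).2⟩)
      (hmin α _ ⟨lt_trans h1 (hs β).1, (hs β).2⟩), h3⟩
  refine ⟨fun β => e (s β) β, fun α β hβ β' hβ' hh => ?_⟩
  dsimp only at hh
  rw [(hss α β hβ).1, (hss α β' hβ').1] at hh
  exact he (s α) (hss α β hβ).2 (hss α β' hβ').2 hh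

/-- a function beyond which `A` has infinitely many points -/
lemma W1.psi (h : W1 W) : ∃ ψ : Set W → W → W, ∀ A : Set W, ¬ A.Countable →
    ∀ α, (A ∩ Set.Ioo α (ψ A α)).Infinite := by
  have : ∀ (A : Set W) (α : W), ∃ γ, ¬ A.Countable → (A ∩ Set.Ioo α γ).Infinite := by
    intro A α
    by_cases hA : A.Countable
    · exact ⟨α, fun hc => absurd hA hc⟩
    · have h1 : ¬ (A ∩ Set.Ioi α).Countable := by
        intro hc
        apply hA
        refine (hc.union (h.iic α)).mono ?_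
        intro x hx
        rcases lt_or_ge α x with h | h
        · exact Or.inl ⟨hx, h⟩
        · exact Or.inr h
      have h2 : (A ∩ Set.Ioi α).Infinite := fun hc => h1 hc.countable
      obtain ⟨γ, hγ⟩ := h.bdd (Set.countable_range
        (fun n => ((h2.natEmbedding _ n : (A ∩ Set.Ioi α : Set W)) : W)))
      refine ⟨γ, fun _ => ?_⟩
      have h3 : (Set.range (fun n => ((h2.natEmbedding _ n : (A ∩ Set.Ioi α : Set W)) : W))).Infinite :=
        Set.infinite_range_of_injective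
          (Subtype.val_injective.comp (h2.natEmbedding _).injective)
      refine h3.mono ?_
      rintro x ⟨n, rfl⟩
      have h4 := (h2.natEmbedding _ n).2
      exact ⟨h4.1, h4.2, hγ _ ⟨n, rfl⟩⟩
  choose ψ hψ using this
  exact ⟨ψ, fun A hA α => hψ A α hA⟩

/-- If `A` bounds `g` and `g` is injective on the intervals `(α, φ α)`, then `φ` is
eventually below `ψ_A`. -/
lemma W1.dom (h : W1 W) {ψ : Set W → W → W} (hψ : ∀ A : Set W, ¬ A.Countable →
    ∀ α, (A ∩ Set.Ioo α (ψ A α)).Infinite) {φ : W → W} {g : W → ℕ}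
    (hg : ∀ α, Set.InjOn g (Set.Ioo α (φ α))) {A : Set W} (hA : ¬ A.Countable) {n : ℕ}
    (hn : {α | α ∈ A ∧ n < g α}.Countable) : ∃ b, ∀ α, b ≤ α → φ α < ψ A α := by
  obtain ⟨b, hb⟩ := h.bdd hn
  refine ⟨b, fun α hα => ?_⟩
  by_contra hcon
  push Not at hcon
  apply hψ A hA α
  have h1 : Set.InjOn g (A ∩ Set.Ioo α (ψ A α)) := by
    refine (hg α).mono ?_
    rintro x ⟨_, hx1, hx2⟩
    exact ⟨hx1, lt_of_lt_of_le hx2 hcon⟩
  have h2 : g '' (A ∩ Set.Ioo α (ψ A α)) ⊆ Set.Iic n := by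
    rintro _ ⟨x, ⟨hx, hx1, _⟩, rfl⟩
    by_contra hc
    have h3 : x < b := hb x ⟨hx, not_le.1 hc⟩
    exact absurd (lt_trans h3 (lt_of_le_of_lt hα hx1)) (lt_irrefl _)
  exact Set.Finite.of_finite_image ((Set.finite_Iic n).subset h2) h1

end order

end Helper212.Nabla
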