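import Pool.Agent.Helper212.Nabla.Defs

open Cardinal Set

namespace Helper212.Nabla

variable {I : Type}

/-- basic open subset of a factor -/
def bx (a : ℕ∞) (n : ℕ) : Set ℕ∞ := {z | z = a ∨ (a = ⊤ ∧ (n : ℕ∞) ≤ z)}

lemma mem_bx_self (a : ℕ∞) (n : ℕ) : a ∈ bx a n := Or.inl rfl

lemma isOpen_bx (a : ℕ∞) (n : ℕ) : IsOpen (bx a n) := by
  by_cases ha : a = ⊤
  · subst ha
    have : bx ⊤ n = Set.Ici (n : ℕ∞) := by
      ext z
      constructor
      · rintro (h | ⟨_, h⟩)
        · rw [h, Set.mem_Ici]; exact le_top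
        · exact h
      · intro h; exact Or.inr ⟨rfl, h⟩
    rw [this]
    rcases Nat.eq_zero_or_pos n with h | h
    · subst h
      have : Set.Ici ((0 : ℕ) : ℕ∞) = Set.univ := by
        ext z; simp
      rw [this]; exact isOpen_univ
    · obtain ⟨m, rfl⟩ : ∃ m, n = m + 1 := ⟨n - 1, by omega⟩
      have : Set.Ici (((m + 1 : ℕ)) : ℕ∞) = Set.Ioi (m : ℕ∞) := by
        ext z
        simp only [Set.mem_Ici, Set.mem_Ioi]
        rw [Nat.cast_add, Nat.cast_one]
        exact ENat.add_one_le_iff (ENat.natCast_ne_top m)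
      rw [this]; exact isOpen_Ioi
  · have : bx a n = {a} := by
      ext z
      constructor
      · rintro (h | ⟨h, _⟩)
        · exact h
        · exact absurd h ha
      · intro h; exact Or.inl h
    rw [this]; exact ENat.isOpen_singleton ha

lemma bx_anti (a : ℕ∞) {n m : ℕ} (h : n ≤ m) : bx a m ⊆ bx a n := by
  rintro z (hz | ⟨ha, hz⟩)
  · exact Or.inl hz
  · exact Or.inr ⟨ha, le_trans (by exact_mod_cast h) hz⟩

lemma bx_fin {a : ℕ∞} (ha : a ≠ ⊤) {n : ℕ} {z : ℕ∞} (hz : z ∈ bx a n) : z = a := by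
  rcases hz with h | ⟨h, _⟩
  · exact h
  · exact absurd h ha

lemma bx_top {n : ℕ} {z : ℕ∞} (hz : z ∈ bx ⊤ n) : (n : ℕ∞) ≤ z := by
  rcases hz with h | ⟨_, h⟩
  · rw [h]; exact le_top
  · exact h

/-- saturated basic open subset of the box product -/
def good (x : Box I) (g : I → ℕ) : Set (Box I) := {y | {i | y i ∉ bx (x i) (g i)}.Countable}

/-- basic open subset of the nabla product -/
def N (x : Box I) (g : I → ℕ) : Set (Nab I) := proj '' good x g

lemma proj_eq {x y : Box I} : proj x = proj y ↔ {i | x i ≠ y i}.Countable := by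
  unfold proj
  exact Quotient.eq (r := modCountable I)

lemma good_sat {x y z : Box I} {g : I → ℕ} (hy : y ∈ good x g) (h : proj y = proj z) :
    z ∈ good x g := by
  rw [proj_eq] at h
  refine (hy.union h).mono ?_
  intro i hi
  by_contra hc
  simp only [Set.mem_union, Set.mem_ofPred_eq, not_or, not_not] at hc
  apply hi
  rw [← hc.2]
  exact hc.1

lemma proj_mem_N {x z : Box I} {g : I → ℕ} : proj z ∈ N x g ↔ z ∈ good x g := by
  constructor
  · rintro ⟨y, hy, hyz⟩
    exact good_sat hy hyz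
  · intro h; exact ⟨z, h, rfl⟩

lemma self_mem_good (x : Box I) (g : I → ℕ) : x ∈ good x g := by
  have : {i | x i ∉ bx (x i) (g i)} = ∅ := by
    ext i
    simp only [Set.mem_ofPred_eq, Set.mem_empty_iff_false, iff_false, not_not]
    exact mem_bx_self _ _
  unfold good
  rw [Set.mem_ofPred_eq, this]
  exact Set.countable_empty

lemma isOpen_good (x : Box I) (g : I → ℕ) : IsOpen (good x g) := by
  classical
  intro y hy
  refine ⟨fun i => if y i ∈ bx (x i) (g i) then bx (x i) (g i) else Set.univ, fun i => ?_,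
    fun i => ?_, fun z hz => ?_⟩
  · dsimp only
    split_ifs
    · exact isOpen_bx _ _
    · exact isOpen_univ
  · dsimp only
    split_ifs with h
    · exact h
    · exact Set.mem_univ _
  · refine Set.Countable.mono ?_ hy
    intro i hi hc
    have := hz i
    dsimp only at this
    rw [if_pos hc] at this
    exact hi this

lemma isOpen_N (x : Box I) (g : I → ℕ) : IsOpen (N x g) := by
  have : IsOpen ((proj (I := I)) ⁻¹' (N x g)) := by
    have h : (proj (I := I)) ⁻¹' (N x g) = good x g := by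
      ext z; exact proj_mem_N
    rw [h]; exact isOpen_good x g
  exact this

lemma exists_N {V : Set (Nab I)} (hV : IsOpen V) {x : Box I} (hx : proj x ∈ V) :
    ∃ g0 : I → ℕ, ∀ g : I → ℕ, (∀ i, g0 i ≤ g i) → N x g ⊆ V := by
  classical
  have hV' : IsOpen ((proj (I := I)) ⁻¹' V) := hV
  obtain ⟨U, hU, hxU, hUV⟩ := hV' x hx
  have key : ∀ i, ∃ n : ℕ, bx (x i) n ⊆ U i := by
    intro i
    by_cases ht : x i = ⊤
    · have h1 : U i ∈ nhds (⊤ : ℕ∞) := by
        rw [← ht]; exact (hU i).mem_nhds (hxU i)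
      have h2 := ENat.tendsto_natCast_nhds_top
      obtain ⟨a, ha, hab⟩ : ∃ a : ℕ∞, a < ⊤ ∧ Set.Ioc a ⊤ ⊆ U i :=
        exists_Ioc_subset_of_mem_nhds h1 ⟨0, by simp⟩
      obtain ⟨m, rfl⟩ : ∃ m : ℕ, a = m := by
        lift a to ℕ using ha.ne
        exact ⟨a, rfl⟩
      refine ⟨m + 1, fun z hz => hab ⟨?_, le_top⟩⟩
      rw [ht] at hz
      have h3 := bx_top hz
      refine lt_of_lt_of_le ?_ h3
      exact_mod_cast Nat.lt_succ_self m
    · refine ⟨0, fun z hz => ?_⟩
      rw [bx_fin ht hz]; exact hxU i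
  choose g0 hg0 using key
  refine ⟨g0, fun g hg => ?_⟩
  rintro p ⟨y, hy, rfl⟩
  -- modify y
  let y' : Box I := fun i => if y i ∈ bx (x i) (g i) then y i else x i
  have h1 : proj y = proj y' := by
    rw [proj_eq]
    refine Set.Countable.mono ?_ hy
    intro i hi hc
    apply hi
    change y i = if y i ∈ bx (x i) (g i) then y i else x i
    rw [if_pos hc]
  have h2 : y' ∈ (proj (I := I)) ⁻¹' V := by
    apply hUV
    intro i
    apply hg0 i
    apply bx_anti _ (hg i)
    change (if y i ∈ bx (x i) (g i) then y i else x i) ∈ bx (x i) (g i)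
    split_ifs with h
    · exact h
    · exact mem_bx_self _ _
  rw [h1]
  exact h2

lemma card_eq_of_unc (hI : #I = ℵ₁) {A : Set I} (hA : ¬ A.Countable) : #A = ℵ₁ := by
  apply le_antisymm
  · rw [← hI]; exact Cardinal.mk_set_le A
  · rw [← Cardinal.le_aleph0_iff_set_countable, not_le] at hA
    rw [← Cardinal.succ_aleph0]
    exact Order.succ_le_of_lt hA

lemma unc_of_card_eq {A : Set I} (hA : #A = ℵ₁) : ¬ A.Countable := by
  rw [← Cardinal.le_aleph0_iff_set_countable, hA, not_le]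
  exact Cardinal.aleph0_lt_aleph_one

lemma key (hI : #I = ℵ₁) (hE : EE I (2 ^ ℵ₁)) {J : Type} (hJ : #J < 2 ^ ℵ₁)
    (y : J → Box I) (h : J → I → ℕ) (x : Box I) (hx : ∀ j, proj x ∉ N (y j) (h j))
    (g0 : I → ℕ) :
    ∃ g : I → ℕ, (∀ i, g0 i ≤ g i) ∧ ∀ j, Disjoint (N x g) (N (y j) (h j)) := by
  classical
  let A : J → Set I := fun j => {i | x i = ⊤ ∧ y j i ≠ ⊤}
  let F : Set (I → ℕ) := Set.range fun j => fun i => (y j i).toNat
  let 𝒜 : Set (Set I) := A '' {j | ¬ (A j).Countable}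
  obtain ⟨g, hg⟩ := hE F 𝒜 (lt_of_le_of_lt Cardinal.mk_range_le hJ)
    (lt_of_le_of_lt (Cardinal.mk_image_le.trans (Cardinal.mk_set_le _)) hJ) (by
      rintro B ⟨j, hj, rfl⟩
      exact card_eq_of_unc hI hj)
  refine ⟨fun i => max (g i) (g0 i), fun i => le_max_right _ _, fun j => ?_⟩
  rw [Set.disjoint_left]
  rintro p ⟨z, hz, rfl⟩ hp
  rw [proj_mem_N] at hp
  have hbad := hz.union hp
  by_cases hj : (A j).Countable
  · have hxj : x ∉ good (y j) (h j) := fun hc => hx j (proj_mem_N.2 hc)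
    apply hxj
    refine (hbad.union hj).mono ?_
    intro i hi
    by_contra hc
    simp only [Set.mem_union, Set.mem_ofPred_eq, not_or, not_not] at hc
    obtain ⟨⟨h1, h2⟩, h3⟩ := hc
    have h3' : ¬ (x i = ⊤ ∧ y j i ≠ ⊤) := h3
    apply hi
    by_cases ht : x i = ⊤
    · have : y j i = ⊤ := by
        by_contra hne
        exact h3' ⟨ht, hne⟩
      rw [ht, this]
      exact mem_bx_self _ _
    · rw [← bx_fin ht h1]; exact h2
  · have hu := unc_of_card_eq (hg _ ⟨j, rfl⟩ (A j) ⟨j, hj, rfl⟩)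
    apply hu
    refine hbad.mono ?_
    rintro i ⟨⟨h1, h2⟩, h3⟩
    by_contra hc
    simp only [Set.mem_union, Set.mem_ofPred_eq, not_or, not_not] at hc
    obtain ⟨h4, h5⟩ := hc
    rw [h1] at h4
    have h6 := bx_top h4
    rw [bx_fin h2 h5] at h6
    have h7 : max (g i) (g0 i) ≤ (y j i).toNat := by
      lift y j i to ℕ using h2 with m hm
      simpa using h6
    have h8 : (y j i).toNat < g i := h3
    have := le_max_left (g i) (g0 i)
    omega

end Helper212.Nabla
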