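import Pool.Agent.Helper212.Nabla.Comb
import Pool.Agent.Helper212.Nabla.Top

open Cardinal Set

namespace Helper212.Nabla

/-- It suffices to make `g` unbounded on uncountably many points of every given set. -/
lemma EE_of_unbdd {I : Type} (hI : #I = ℵ₁) {κ : Cardinal.{0}} (hκ : ℵ₀ ≤ κ)
    (H : ∀ 𝒜 : Set (Set I), #𝒜 < κ → (∀ A ∈ 𝒜, ¬ A.Countable) →
      ∃ g : I → ℕ, ∀ A ∈ 𝒜, ∀ n : ℕ, ¬ {α | α ∈ A ∧ n < g α}.Countable) : EE I κ := by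
  intro F 𝒜 hF h𝒜 hA
  have hn : ∀ (f : I → ℕ) (A : Set I), ∃ n : ℕ, ¬ A.Countable →
      ¬ {α | α ∈ A ∧ f α ≤ n}.Countable := by
    intro f A
    by_contra hcon
    push Not at hcon
    apply (hcon 0).1
    have h1 : A ⊆ ⋃ n : ℕ, {α | α ∈ A ∧ f α ≤ n} := fun α hα =>
      Set.mem_iUnion.2 ⟨f α, hα, le_rfl⟩
    exact (Set.countable_iUnion fun n => (hcon n).2).mono h1
  choose N hN using hn
  let 𝒜' : Set (Set I) := (fun p : (I → ℕ) × Set I => {α | α ∈ p.2 ∧ p.1 α ≤ N p.1 p.2}) ''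
    (F ×ˢ 𝒜)
  have h1 : #𝒜' < κ := by
    refine lt_of_le_of_lt Cardinal.mk_image_le ?_
    rw [Cardinal.mk_setProd]
    exact Cardinal.mul_lt_of_lt hκ hF h𝒜
  obtain ⟨g, hg⟩ := H 𝒜' h1 (by
    rintro _ ⟨⟨f, A⟩, ⟨hf, hA'⟩, rfl⟩
    exact hN f A (unc_of_card_eq (hA A hA')))
  refine ⟨g, fun f hf A hA' => card_eq_of_unc hI ?_⟩
  have h2 := hg _ ⟨⟨f, A⟩, ⟨hf, hA'⟩, rfl⟩ (N f A)
  intro hc
  apply h2
  refine hc.mono ?_
  rintro α ⟨⟨h3, h4⟩, h5⟩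
  exact ⟨h3, lt_of_le_of_lt h4 h5⟩

section order

variable {W : Type} [LinearOrder W] [WellFoundedLT W]

/-- `𝔼(ω₁, κ)` for `κ` at most the dominating number of `ω₁^ω₁` mod countable. -/
theorem EE_dom (h : W1 W) (hW : #W = ℵ₁) {κ : Cardinal.{0}} (hκ : ℵ₀ ≤ κ)
    (hD : ∀ 𝒟 : Set (W → W), #𝒟 < κ →
      ∃ φ : W → W, ∀ ψ ∈ 𝒟, ¬ {α | ψ α < φ α}.Countable) : EE W κ := by
  obtain ⟨ψ, hψ⟩ := h.psi
  refine EE_of_unbdd hW hκ fun 𝒜 h𝒜 hA => ?_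
  obtain ⟨φ, hφ⟩ := hD (ψ '' 𝒜) (lt_of_le_of_lt Cardinal.mk_image_le h𝒜)
  obtain ⟨g, hg⟩ := h.inj φ
  refine ⟨g, fun A hA' n hn => ?_⟩
  obtain ⟨b, hb⟩ := h.dom hψ hg (hA A hA') hn
  apply hφ (ψ A) ⟨A, hA', rfl⟩
  refine (h.hc b).mono ?_
  intro α hα
  by_contra hc
  exact absurd (hb α (not_lt.1 hc)) (not_lt.2 (le_of_lt hα))

/-- `𝔼(ω₁, κ)` from almost disjoint functions into a set with a small cofinal family of
subsets of size `ℵ₁`. -/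
theorem EE_ad (h : W1 W) (hW : #W = ℵ₁) {κ : Cardinal.{0}} (hκ : ℵ₀ < κ) (M : Type)
    (𝒮 : Set (Set M)) (F : Set (W → M)) (h𝒮 : #𝒮 < κ) (hS1 : ∀ S ∈ 𝒮, #S ≤ ℵ₁)
    (hcov : ∀ T : Set M, #T ≤ ℵ₁ → ∃ S ∈ 𝒮, T ⊆ S) (hF : κ ≤ #F)
    (had : ∀ f ∈ F, ∀ g ∈ F, f ≠ g → {α | f α = g α}.Countable) : EE W κ := by
  classical
  obtain ⟨ψ, hψ⟩ := h.psi
  obtain ⟨e, he⟩ := h.enum
  refine EE_of_unbdd hW hκ.le fun 𝒜 h𝒜 hA => ?_
  by_contra hcon
  push Not at hcon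
  choose A hA1 n hn using hcon
  -- coding of small subsets of `M`
  have hj : ∀ S : 𝒮, ∃ j : M → W, Set.InjOn j S.1 := by
    rintro ⟨S, hS⟩
    have h1 : #S ≤ #W := by rw [hW]; exact hS1 S hS
    obtain ⟨i⟩ := h1
    have hne : Nonempty W := by
      by_contra hc
      rw [not_nonempty_iff] at hc
      exact h.hu (Set.countable_univ_iff.2 inferInstance)
    obtain ⟨w⟩ := hne
    refine ⟨fun m => if hm : m ∈ S then i ⟨m, hm⟩ else w, ?_⟩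
    intro m hm m' hm' hh
    dsimp only at hh
    rw [dif_pos hm, dif_pos hm'] at hh
    exact congrArg Subtype.val (i.injective hh)
  choose j hj using hj
  have hr : ∀ f : W → M, ∃ S : 𝒮, Set.range f ⊆ S.1 := by
    intro f
    have h1 : #(Set.range f) ≤ ℵ₁ := by rw [← hW]; exact Cardinal.mk_range_le
    obtain ⟨S, hS, h2⟩ := hcov _ h1
    exact ⟨⟨S, hS⟩, h2⟩
  choose S hS using hr
  let φ : (W → M) → W → W := fun f α => j (S f) (f α)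
  have hg1 : ∀ f : W → M, ∃ g : W → ℕ, ∀ α, Set.InjOn g (Set.Ioo α (φ f α)) :=
    fun f => h.inj (φ f)
  choose g1 hg1 using hg1
  let A1 : (W → M) → Set W := fun f => A (g1 f)
  have hb : ∀ f : W → M, ∃ b, ∀ α, b ≤ α → φ f α < ψ (A1 f) α := fun f =>
    h.dom hψ (hg1 f) (hA _ (hA1 _)) (hn (g1 f))
  let g2 : (W → M) → W → ℕ := fun f α => e (ψ (A1 f) α) (φ f α)
  let A2 : (W → M) → Set W := fun f => A (g2 f)
  let data : F → 𝒮 × 𝒜 × 𝒜 × ℕ := fun f =>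
    (S f.1, ⟨A1 f.1, hA1 _⟩, ⟨A2 f.1, hA1 _⟩, n (g2 f.1))
  have hfib : ∀ d, #(data ⁻¹' {d}) ≤ ℵ₀ := by
    intro d
    by_contra hc
    have hinf : (data ⁻¹' {d}).Infinite := by
      intro hfin
      apply hc
      exact (Cardinal.lt_aleph0_iff_finite.2 hfin.to_subtype).le
    obtain ⟨G, hG, hGc⟩ := hinf.exists_subset_card_eq (d.2.2.2 + 2)
    -- the exceptional set
    choose b hb using hb
    let C : Set W := (⋃ f ∈ (G : Set F), Set.Iio (b f.1)) ∪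
      (⋃ f ∈ (G : Set F), {α | α ∈ A (g2 f.1) ∧ n (g2 f.1) < g2 f.1 α}) ∪
      (⋃ f ∈ (G : Set F), ⋃ f' ∈ (G : Set F), {α | f ≠ f' ∧ f.1 α = f'.1 α})
    have hC : C.Countable := by
      refine Set.Countable.union (Set.Countable.union ?_ ?_) ?_
      · exact (G.countable_toSet).biUnion fun f _ => h.hc _
      · exact (G.countable_toSet).biUnion fun f _ => hn _
      · refine (G.countable_toSet).biUnion fun f _ => (G.countable_toSet).biUnion fun f' _ => ?_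
        by_cases hff : f = f'
        · have : {α | f ≠ f' ∧ f.1 α = f'.1 α} = ∅ := by
            ext α
            simp [hff]
          rw [this]; exact Set.countable_empty
        · refine (had f.1 f.2 f'.1 f'.2 (fun hc => hff (Subtype.ext hc))).mono ?_
          rintro α ⟨_, h1⟩
          exact h1
    have hA2 : ¬ (d.2.2.1.1).Countable := hA _ d.2.2.1.2
    obtain ⟨α, hα1, hα2⟩ : ∃ α, α ∈ d.2.2.1.1 ∧ α ∉ C := by
      by_contra hcon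
      push Not at hcon
      exact hA2 (hC.mono fun α hα => hcon α hα)
    have hα3 : ∀ f ∈ G, b f.1 ≤ α := by
      intro f hf
      by_contra hlt
      exact hα2 (Or.inl (Or.inl (Set.mem_biUnion (x := f) hf (not_le.1 hlt))))
    have hα4 : ∀ f ∈ G, α ∈ A (g2 f.1) → g2 f.1 α ≤ n (g2 f.1) := by
      intro f hf hmem
      by_contra hlt
      exact hα2 (Or.inl (Or.inr (Set.mem_biUnion (x := f) hf ⟨hmem, not_le.1 hlt⟩)))
    have hα5 : ∀ f ∈ G, ∀ f' ∈ G, f ≠ f' → f.1 α ≠ f'.1 α := by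
      intro f hf f' hf' hne heq
      exact hα2 (Or.inr (Set.mem_biUnion (x := f) hf (Set.mem_biUnion (x := f') hf' ⟨hne, heq⟩)))
    have hdat : ∀ f ∈ G, S f.1 = d.1 ∧ A1 f.1 = d.2.1.1 ∧ A2 f.1 = d.2.2.1.1 ∧
        n (g2 f.1) = d.2.2.2 := by
      intro f hf
      have h1 : data f = d := hG hf
      rw [← h1]
      exact ⟨rfl, rfl, rfl, rfl⟩
    have hmaps : ∀ f ∈ G, g2 f.1 α ∈ Finset.range (d.2.2.2 + 1) := by
      intro f hf
      obtain ⟨_, _, h3, h4⟩ := hdat f hf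
      rw [Finset.mem_range, Nat.lt_succ_iff, ← h4]
      apply hα4 f hf
      have : A (g2 f.1) = d.2.2.1.1 := h3
      rw [this]; exact hα1
    have hcard : (Finset.range (d.2.2.2 + 1)).card < G.card := by
      rw [Finset.card_range, hGc]; omega
    obtain ⟨f, hf, f', hf', hne, heq⟩ :=
      Finset.exists_ne_map_eq_of_card_lt_of_maps_to hcard hmaps
    obtain ⟨h1, h2, _, _⟩ := hdat f hf
    obtain ⟨h1', h2', _, _⟩ := hdat f' hf'
    have h3 : φ f.1 α < ψ (A1 f.1) α := hb f.1 α (hα3 f hf)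
    have h3' : φ f'.1 α < ψ (A1 f'.1) α := hb f'.1 α (hα3 f' hf')
    have heq' : e (ψ (A1 f.1) α) (φ f.1 α) = e (ψ (A1 f'.1) α) (φ f'.1 α) := heq
    rw [h2] at heq' h3
    rw [h2'] at heq' h3'
    have h4 : φ f.1 α = φ f'.1 α := he _ h3 h3' heq'
    have h4' : j (S f.1) (f.1 α) = j (S f'.1) (f'.1 α) := h4
    have h5 : f.1 α ∈ (S f.1).1 := hS f.1 ⟨α, rfl⟩
    have h5' : f'.1 α ∈ (S f'.1).1 := hS f'.1 ⟨α, rfl⟩
    rw [h1] at h4' h5
    rw [h1'] at h4' h5'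
    exact hα5 f hf f' hf' hne (hj d.1 h5 h5' h4')
  have h1 : #F ≤ #(𝒮 × 𝒜 × 𝒜 × ℕ) * ℵ₀ := Cardinal.mk_le_mk_mul_of_mk_preimage_le data hfib
  have h2 : #(𝒮 × 𝒜 × 𝒜 × ℕ) * ℵ₀ < κ := by
    rw [Cardinal.mk_prod, Cardinal.mk_prod, Cardinal.mk_prod]
    simp only [Cardinal.lift_id, Cardinal.mk_nat]
    refine Cardinal.mul_lt_of_lt hκ.le (Cardinal.mul_lt_of_lt hκ.le h𝒮
      (Cardinal.mul_lt_of_lt hκ.le h𝒜 (Cardinal.mul_lt_of_lt hκ.le h𝒜 hκ))) hκ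
  exact absurd (lt_of_le_of_lt (hF.trans h1) h2) (lt_irrefl _)

end order

end Helper212.Nabla
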