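import Pool.Agent.Helper212.Nabla.Comb2

open Cardinal Set

namespace Helper212.Nabla

/-- splitting uncountable sets into `ℵ₁` infinite countable pieces -/
lemma pieces {I : Type} (hI : #I = ℵ₁) {A : Set I} (hA : ¬ A.Countable) :
    ∃ p : I × ℕ → I, Function.Injective p ∧ ∀ x, p x ∈ A := by
  have h1 : #(I × ℕ) = #A := by
    rw [Cardinal.mk_prod, card_eq_of_unc hI hA]
    simp only [Cardinal.lift_id, Cardinal.mk_nat]
    rw [hI]
    exact Cardinal.mul_aleph0_eq (Cardinal.aleph0_lt_aleph_one.le)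
  obtain ⟨q⟩ := Cardinal.eq.1 h1
  exact ⟨fun x => (q x : I), Subtype.val_injective.comp q.injective, fun x => (q x).2⟩

/-- If the unbounded-on-infinite-sets principle holds for fewer than `κ` sets, so does
`𝔼`. -/
theorem EE_of_inf {I : Type} (hI : #I = ℵ₁) {κ : Cardinal.{0}} (hκ : ℵ₁ < κ)
    (H : ∀ ℬ : Set (Set I), #ℬ < κ → (∀ B ∈ ℬ, B.Infinite) →
      ∃ g : I → ℕ, ∀ B ∈ ℬ, ∀ n, ∃ i ∈ B, n < g i) : EE I κ := by
  have hκ0 : ℵ₀ ≤ κ := (Cardinal.aleph0_lt_aleph_one.trans hκ).le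
  refine EE_of_unbdd hI hκ0 fun 𝒜 h𝒜 hA => ?_
  have hp : ∀ A : 𝒜, ∃ p : I × ℕ → I, Function.Injective p ∧ ∀ x, p x ∈ A.1 :=
    fun A => pieces hI (hA A.1 A.2)
  choose p hp1 hp2 using hp
  let ℬ : Set (Set I) := Set.range fun x : 𝒜 × I => Set.range fun k : ℕ => p x.1 (x.2, k)
  have h1 : #ℬ < κ := by
    refine lt_of_le_of_lt Cardinal.mk_range_le ?_
    rw [Cardinal.mk_prod]
    simp only [Cardinal.lift_id]
    rw [hI]
    exact Cardinal.mul_lt_of_lt hκ0 h𝒜 hκ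
  obtain ⟨g, hg⟩ := H ℬ h1 (by
    rintro _ ⟨⟨A, i⟩, rfl⟩
    refine Set.infinite_range_of_injective ?_
    intro k k' hk
    have := hp1 A hk
    exact congrArg Prod.snd this)
  refine ⟨g, fun A hA' n hc => ?_⟩
  have h2 : ∀ i : I, ∃ k : ℕ, n < g (p ⟨A, hA'⟩ (i, k)) := by
    intro i
    obtain ⟨_, ⟨k, rfl⟩, h3⟩ := hg _ ⟨(⟨A, hA'⟩, i), rfl⟩ n
    exact ⟨k, h3⟩
  choose k hk using h2
  have h3 : (Set.range fun i => p ⟨A, hA'⟩ (i, k i)).Countable := by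
    refine hc.mono ?_
    rintro _ ⟨i, rfl⟩
    exact ⟨hp2 ⟨A, hA'⟩ (i, k i), hk i⟩
  have h4 : Function.Injective fun i => p ⟨A, hA'⟩ (i, k i) := by
    intro i i' hh
    exact congrArg Prod.fst (hp1 _ hh)
  have h5 : Countable I := by
    have h6 : Countable (Set.range fun i => p ⟨A, hA'⟩ (i, k i)) := h3.to_subtype
    exact (Set.rangeFactorization_injective.2 h4).countable
  have h7 : ¬ (Set.univ : Set I).Countable := by
    apply unc_of_card_eq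
    rw [Cardinal.mk_univ, hI]
  exact h7 (Set.countable_univ_iff.2 h5)

/-- `𝔼(ω₁, κ)` if `ℕ^ω₁` is not the union of fewer than `κ` nowhere dense sets. -/
theorem EE_cov {I : Type} (hI : #I = ℵ₁) {κ : Cardinal.{0}} (hκ : ℵ₁ < κ)
    (H : ∀ 𝒩 : Set (Set (I → ℕ)), #𝒩 < κ → (∀ S ∈ 𝒩, IsNowhereDense S) →
      ⋃₀ 𝒩 ≠ Set.univ) : EE I κ := by
  classical
  have hκ0 : ℵ₀ < κ := Cardinal.aleph0_lt_aleph_one.trans hκ
  refine EE_of_inf hI hκ fun ℬ hℬ hB => ?_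
  let 𝒩 : Set (Set (I → ℕ)) := Set.range fun x : ℬ × ℕ => {g | ∀ i ∈ x.1.1, g i ≤ x.2}
  have h1 : #𝒩 < κ := by
    refine lt_of_le_of_lt Cardinal.mk_range_le ?_
    rw [Cardinal.mk_prod]
    simp only [Cardinal.lift_id, Cardinal.mk_nat]
    exact Cardinal.mul_lt_of_lt hκ0.le hℬ hκ0
  have h2 : ∀ S ∈ 𝒩, IsNowhereDense S := by
    rintro _ ⟨⟨⟨B, hB'⟩, n⟩, rfl⟩
    have hcl : IsClosed {g : I → ℕ | ∀ i ∈ B, g i ≤ n} := by
      have : {g : I → ℕ | ∀ i ∈ B, g i ≤ n} = ⋂ i ∈ B, {g | g i ≤ n} := by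
        ext g; simp
      rw [this]
      refine isClosed_biInter fun i _ => ?_
      have h0 : IsClosed (Set.Iic n : Set ℕ) := isClosed_discrete _
      exact h0.preimage (continuous_apply (A := fun _ : I => ℕ) i)
    rw [hcl.isNowhereDense_iff]
    by_contra hne
    obtain ⟨g, hg⟩ := Set.nonempty_iff_ne_empty.2 hne
    rw [mem_interior] at hg
    obtain ⟨t, ht, hto, hgt⟩ := hg
    obtain ⟨u, v, hv, hvt⟩ := (isOpen_pi_iff.1 hto) g hgt
    have hinf : (B \ (u : Set I)).Nonempty := ((hB B hB').diff u.finite_toSet).nonempty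
    obtain ⟨i, hi, hiu⟩ := hinf
    have h3 : Function.update g i (n + 1) ∈ t := by
      apply hvt
      intro l hl
      have hne : l ≠ i := fun hc => hiu (hc ▸ hl)
      rw [Function.update_of_ne hne]
      exact (hv l hl).2
    have h4 := ht h3 i hi
    rw [Function.update_self] at h4
    omega
  have h3 := H 𝒩 h1 h2
  obtain ⟨g, hg⟩ := (Set.ne_univ_iff_exists_notMem _).1 h3
  refine ⟨g, fun B hB' n => ?_⟩
  by_contra hcon
  push Not at hcon
  exact hg ⟨_, ⟨(⟨B, hB'⟩, n), rfl⟩, hcon⟩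

end Helper212.Nabla
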