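import Mathlib

open Cardinal Set

namespace Helper212.Nabla

/-- The set of all functions `x : I → ω + 1`, to be given the box topology. -/
def Box (I : Type) : Type := I → ℕ∞

/-- The box topology on `(ω+1)^I`: the sets `∏ U_i`, with each `U_i` open in `ω+1`,
form a base. -/
instance (I : Type) : TopologicalSpace (Box I) where
  IsOpen S := ∀ x ∈ S, ∃ U : I → Set ℕ∞, (∀ i, IsOpen (U i)) ∧ (∀ i, x i ∈ U i) ∧
    ∀ y : Box I, (∀ i, y i ∈ U i) → y ∈ S
  isOpen_univ := fun _ _ => ⟨fun _ => Set.univ, fun _ => isOpen_univ,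
    fun _ => Set.mem_univ _, fun _ _ => Set.mem_univ _⟩
  isOpen_inter := by
    rintro S T hS hT x ⟨hxS, hxT⟩
    obtain ⟨U, hU, hxU, hUS⟩ := hS x hxS
    obtain ⟨V, hV, hxV, hVT⟩ := hT x hxT
    exact ⟨fun i => U i ∩ V i, fun i => (hU i).inter (hV i), fun i => ⟨hxU i, hxV i⟩,
      fun y hy => ⟨hUS y fun i => (hy i).1, hVT y fun i => (hy i).2⟩⟩
  isOpen_sUnion := by
    rintro 𝒮 h𝒮 x ⟨S, hS, hxS⟩
    obtain ⟨U, hU, hxU, hUS⟩ := h𝒮 S hS x hxS
    exact ⟨U, hU, hxU, fun y hy => ⟨S, hS, hUS y hy⟩⟩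

/-- Points of the box product that differ in only countably many coordinates are
identified. -/
def modCountable (I : Type) : Setoid (Box I) where
  r x y := {i | x i ≠ y i}.Countable
  iseqv := by
    refine ⟨fun x => by simp, fun {x y} h => ?_, fun {x y z} h1 h2 => ?_⟩
    · have : {i | y i ≠ x i} = {i | x i ≠ y i} := by
        ext i; exact ne_comm
      rw [this]; exact h
    · refine (h1.union h2).mono ?_
      intro i hi
      by_contra hc
      simp only [Set.mem_union, Set.mem_ofPred_eq, not_or, not_not] at hc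
      exact hi (hc.1.trans hc.2)

/-- The nabla product `∇^I(ω+1)`: the quotient of the box product by
`mod countable`, with the quotient topology. -/
def Nab (I : Type) : Type := Quotient (modCountable I)

/-- The projection. -/
def proj {I : Type} (x : Box I) : Nab I := Quotient.mk (modCountable I) x

instance (I : Type) : TopologicalSpace (Nab I) :=
  TopologicalSpace.coinduced (proj (I := I)) inferInstance

/-- The principle `𝔼(I, κ)` for an index set `I` of size `ℵ₁`. -/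
def EE (I : Type) (κ : Cardinal.{0}) : Prop :=
  ∀ (F : Set (I → ℕ)) (𝒜 : Set (Set I)), #F < κ → #𝒜 < κ → (∀ A ∈ 𝒜, #A = ℵ₁) →
    ∃ g : I → ℕ, ∀ f ∈ F, ∀ A ∈ 𝒜, #{i : I | i ∈ A ∧ f i < g i} = ℵ₁

/-- A model hypothesis for `I`: all subsets of `I` are the union of an increasing
well-ordered chain, of uncountable cofinality, of families closed under intersection, for
each of which some `g : I → ℕ` exceeds every `n` uncountably often on every uncountable
member. -/
def MHyp (I : Type) : Prop :=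
  ∃ (Θ : Type) (_ : LinearOrder Θ) (_ : WellFoundedLT Θ) (Q : Θ → Set (Set I)),
    (∀ c : ℕ → Θ, ∃ ξ, ∀ n, c n ≤ ξ) ∧ (∀ ξ η, ξ ≤ η → Q ξ ⊆ Q η) ∧ (∀ A, ∃ ξ, A ∈ Q ξ) ∧
    (∀ ξ, ∀ A ∈ Q ξ, ∀ B ∈ Q ξ, A ∩ B ∈ Q ξ) ∧
    (∀ ξ, ∃ g : I → ℕ, ∀ A ∈ Q ξ, ¬ A.Countable → ∀ n : ℕ, ¬ {i | i ∈ A ∧ n < g i}.Countable)

/-- `ω₁` -/
abbrev Om : Type := (Ordinal.omega 1).ToType

end Helper212.Nabla
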