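import Pool.Agent.Helper212.Nabla.Top

open Cardinal Set

namespace Helper212.Nabla

variable {I : Type}

lemma card_box (hI : #I = ℵ₁) : #(Box I) = 2 ^ ℵ₁ := by
  have h1 : #(Box I) = #ℕ∞ ^ #I := by
    unfold Box
    rw [Cardinal.mk_pi, Cardinal.prod_const', ]
  have h2 : #ℕ∞ = ℵ₀ := Cardinal.mk_eq_aleph0 _
  rw [h1, h2, hI]
  exact Cardinal.power_eq_two_power (le_of_lt Cardinal.aleph0_lt_aleph_one)
    (Cardinal.natCast_lt_aleph0 (n := 2)).le (le_of_lt Cardinal.aleph0_lt_aleph_one)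

theorem para_of_EE (hI : #I = ℵ₁) (hE : EE I (2 ^ ℵ₁)) : ParacompactSpace (Nab I) := by
  classical
  obtain ⟨r, wo, hr⟩ := Cardinal.exists_ord_eq (Box I)
  have hseg : ∀ x : Box I, #{y // r y x} < 2 ^ ℵ₁ := by
    intro x
    have h := Cardinal.card_typein_lt (r := r) x hr
    rw [card_box hI] at h
    rwa [Ordinal.card_typein (r := r) x] at h
  refine ⟨fun α s ho hc => ?_⟩
  -- the one-step choice
  have step : ∀ (x : Box I) (c : ∀ y : Box I, r y x → Option (I → ℕ)),
      ∃ v : Option (I → ℕ),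
        ((∃ y, ∃ h : r y x, ∃ g, c y h = some g ∧ proj x ∈ N y g) ∧ v = none) ∨
        (∃ g, v = some g ∧ (∃ a, N x g ⊆ s a) ∧
          ∀ y (h : r y x) g', c y h = some g' → Disjoint (N x g) (N y g')) := by
    intro x c
    by_cases hcov : ∃ y, ∃ h : r y x, ∃ g, c y h = some g ∧ proj x ∈ N y g
    · exact ⟨none, Or.inl ⟨hcov, rfl⟩⟩
    · push Not at hcov
      have hx : proj x ∈ ⋃ a, s a := by rw [hc]; exact Set.mem_univ _
      obtain ⟨a, ha⟩ := Set.mem_iUnion.1 hx
      obtain ⟨g0, hg0⟩ := exists_N (ho a) ha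
      let J : Type := {y : {y // r y x} // ∃ g, c y.1 y.2 = some g}
      have hJ : #J < 2 ^ ℵ₁ := lt_of_le_of_lt (Cardinal.mk_subtype_le _) (hseg x)
      choose G hG using (fun j : J => j.2)
      obtain ⟨g, hgg, hgd⟩ := key hI hE hJ (fun j => j.1.1) G x
        (fun j => hcov _ _ _ (hG j)) g0
      refine ⟨some g, Or.inr ⟨g, rfl, ⟨a, hg0 g hgg⟩, fun y h g' hg' => ?_⟩⟩
      have h3 := hgd ⟨⟨y, h⟩, ⟨g', hg'⟩⟩
      have h4 : G ⟨⟨y, h⟩, ⟨g', hg'⟩⟩ = g' :=
        Option.some.inj ((hG ⟨⟨y, h⟩, ⟨g', hg'⟩⟩).symm.trans hg')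
      rw [h4] at h3
      exact h3
  let C : Box I → Option (I → ℕ) := wo.wf.fix (fun x c => Classical.choose (step x c))
  have hC : ∀ x, ((∃ y, ∃ _ : r y x, ∃ g, C y = some g ∧ proj x ∈ N y g) ∧ C x = none) ∨
        (∃ g, C x = some g ∧ (∃ a, N x g ⊆ s a) ∧
          ∀ y (_ : r y x) g', C y = some g' → Disjoint (N x g) (N y g')) := by
    intro x
    have h1 : C x = Classical.choose (step x (fun y _ => C y)) :=
      WellFounded.fix_eq wo.wf _ x
    have h2 := Classical.choose_spec (step x (fun y _ => C y))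
    rw [← h1] at h2
    exact h2
  let T : Box I → Set (Nab I) := fun x => {p | ∃ g, C x = some g ∧ p ∈ N x g}
  have hlt : ∀ x y, r y x → Disjoint (T x) (T y) := by
    intro x y hyx
    rw [Set.disjoint_left]
    rintro p ⟨g, hg, hp⟩ ⟨g', hg', hp'⟩
    rcases hC x with ⟨_, hn⟩ | ⟨g1, hg1, _, hd⟩
    · rw [hn] at hg; exact absurd hg (by simp)
    · rw [hg] at hg1
      have := Option.some.inj hg1
      subst this
      exact Set.disjoint_left.1 (hd y hyx g' hg') hp hp'
  have hTd : ∀ x y, x ≠ y → Disjoint (T x) (T y) := by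
    intro x y hxy
    rcases trichotomous_of r x y with h | h | h
    · exact (hlt y x h).symm
    · exact absurd h hxy
    · exact hlt x y h
  have hTo : ∀ x, IsOpen (T x) := by
    intro x
    cases hx : C x with
    | none =>
      have : T x = ∅ := by
        ext p
        simp only [Set.mem_empty_iff_false, iff_false]
        rintro ⟨g, hg, _⟩
        rw [hx] at hg
        exact absurd hg (by simp)
      rw [this]; exact isOpen_empty
    | some g =>
      have : T x = N x g := by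
        ext p
        constructor
        · rintro ⟨g', hg', hp⟩
          rw [hx] at hg'
          rw [Option.some.inj hg']; exact hp
        · intro hp; exact ⟨g, hx, hp⟩
      rw [this]; exact isOpen_N x g
  have hTc : ∀ p, ∃ x, p ∈ T x := by
    intro p
    obtain ⟨x, rfl⟩ : ∃ x, proj x = p := Quotient.exists_rep p
    rcases hC x with ⟨⟨y, _, g, hg, hp⟩, _⟩ | ⟨g, hg, _⟩
    · exact ⟨y, g, hg, hp⟩
    · exact ⟨x, g, hg, proj_mem_N.2 (self_mem_good x g)⟩
  refine ⟨Box I, T, hTo, ?_, ?_, ?_⟩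
  · ext p
    simp only [Set.mem_iUnion, Set.mem_univ, iff_true]
    exact hTc p
  · intro p
    obtain ⟨x, hx⟩ := hTc p
    refine ⟨T x, (hTo x).mem_nhds hx, ?_⟩
    refine (Set.finite_singleton x).subset ?_
    intro y hy
    by_contra hne
    obtain ⟨q, hq⟩ := hy
    exact Set.disjoint_left.1 (hTd y x hne) hq.1 hq.2
  · intro x
    rcases hC x with ⟨_, hn⟩ | ⟨g, hg, ⟨a, ha⟩, _⟩
    · have hx : proj x ∈ ⋃ a, s a := by rw [hc]; exact Set.mem_univ _
      obtain ⟨a, _⟩ := Set.mem_iUnion.1 hx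
      refine ⟨a, ?_⟩
      rintro p ⟨g, hg, _⟩
      rw [hn] at hg
      exact absurd hg (by simp)
    · refine ⟨a, ?_⟩
      rintro p ⟨g', hg', hp⟩
      rw [hg] at hg'
      rw [Option.some.inj hg'] at ha
      exact ha hp

end Helper212.Nabla
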