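import Pool.Agent.Helper212.Nabla.Top

open Cardinal Set

namespace Helper212.Nabla

variable {I : Type}

/-- the disjointness criterion -/
lemma disj {x y : Box I} {h : I → ℕ} (hx : proj x ∉ N y h) {G g : I → ℕ}
    (hG : ∀ n : ℕ, ¬ {i | x i = ⊤ ∧ y i = n}.Countable →
      ¬ {i | (x i = ⊤ ∧ y i = n) ∧ n < G i}.Countable)
    (hg : ∀ i, G i ≤ g i) : Disjoint (N x g) (N y h) := by
  classical
  rw [Set.disjoint_left]
  rintro p ⟨z, hz, rfl⟩ hp
  rw [proj_mem_N] at hp
  have hbad := hz.union hp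
  by_cases hj : ∀ n : ℕ, {i | x i = ⊤ ∧ y i = n}.Countable
  · have hxj : x ∉ good y h := fun hc => hx (proj_mem_N.2 hc)
    apply hxj
    refine (hbad.union (Set.countable_iUnion hj)).mono ?_
    intro i hi
    by_contra hc
    simp only [Set.mem_union, Set.mem_ofPred_eq, not_or, not_not, Set.mem_iUnion,
      not_exists] at hc
    obtain ⟨⟨h1, h2⟩, h3⟩ := hc
    apply hi
    by_cases ht : x i = ⊤
    · have : y i = ⊤ := by
        by_contra hne
        lift y i to ℕ using hne with m hm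
        exact h3 m ⟨ht, rfl⟩
      rw [ht, this]
      exact mem_bx_self _ _
    · rw [← bx_fin ht h1]; exact h2
  · push Not at hj
    obtain ⟨n, hn⟩ := hj
    apply hG n hn
    refine hbad.mono ?_
    rintro i ⟨⟨h1, h2⟩, h3⟩
    by_contra hc
    simp only [Set.mem_union, Set.mem_ofPred_eq, not_or, not_not] at hc
    obtain ⟨h4, h5⟩ := hc
    rw [h1] at h4
    have h6 := bx_top h4
    have h2' : y i ≠ ⊤ := by rw [h2]; exact ENat.natCast_ne_top n
    rw [bx_fin h2' h5, h2] at h6
    have h7 : g i ≤ n := by exact_mod_cast h6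
    have := hg i
    omega

/-- Paracompactness from a suitable well-order of all points. -/
theorem para_of_wo (r : Box I → Box I → Prop) (wo : IsWellOrder (Box I) r)
    (G : Box I → I → ℕ) (hG : ∀ x y, r y x → ∀ n : ℕ, ¬ {i | x i = ⊤ ∧ y i = n}.Countable →
      ¬ {i | (x i = ⊤ ∧ y i = n) ∧ n < G x i}.Countable) : ParacompactSpace (Nab I) := by
  classical
  refine ⟨fun α s ho hc => ?_⟩
  -- the one-step choice
  have step : ∀ (x : Box I) (c : ∀ y : Box I, r y x → Option (I → ℕ)),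
      ∃ v : Option (I → ℕ),
        ((∃ y, ∃ h : r y x, ∃ g, c y h = some g ∧ proj x ∈ N y g) ∧ v = none) ∨
        (∃ g, v = some g ∧ (∃ a, N x g ⊆ s a) ∧
          ∀ y (h : r y x) g', c y h = some g' → Disjoint (N x g) (N y g')) := by
    intro x c
    by_cases hcov : ∃ y, ∃ h : r y x, ∃ g, c y h = some g ∧ proj x ∈ N y g
    · exact ⟨none, Or.inl ⟨hcov, rfl⟩⟩
    · push Not at hcov
      have hx : proj x ∈ ⋃ a, s a := by rw [hc]; exact Set.mem_univ _
      obtain ⟨a, ha⟩ := Set.mem_iUnion.1 hx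
      obtain ⟨g0, hg0⟩ := exists_N (ho a) ha
      refine ⟨some fun i => max (G x i) (g0 i), Or.inr ⟨_, rfl,
        ⟨a, hg0 _ fun i => le_max_right _ _⟩, fun y h g' hg' => ?_⟩⟩
      exact disj (hcov y h g' hg') (hG x y h) fun i => le_max_left _ _
  let C : Box I → Option (I → ℕ) := wo.wf.fix (fun x c => Classical.choose (step x c))
  have hC : ∀ x, ((∃ y, ∃ _ : r y x, ∃ g, C y = some g ∧ proj x ∈ N y g) ∧ C x = none) ∨
        (∃ g, C x = some g ∧ (∃ a, N x g ⊆ s a) ∧
          ∀ y (_ : r y x) g', C y = some g' → Disjoint (N x g) (N y g')) := by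
    intro x
    have h1 : C x = Classical.choose (step x (fun y _ => C y)) :=
      WellFounded.fix_eq wo.wf _ x
    have h2 := Classical.choose_spec (step x (fun y _ => C y))
    rw [← h1] at h2
    exact h2
  let T : Box I → Set (Nab I) := fun x => {p | ∃ g, C x = some g ∧ p ∈ N x g}
  have hlt : ∀ x y, r y x → Disjoint (T x) (T y) := by
    intro x y hyx
    rw [Set.disjoint_left]
    rintro p ⟨g, hg, hp⟩ ⟨g', hg', hp'⟩
    rcases hC x with ⟨_, hn⟩ | ⟨g1, hg1, _, hd⟩
    · rw [hn] at hg; exact absurd hg (by simp)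
    · rw [hg] at hg1
      have := Option.some.inj hg1
      subst this
      exact Set.disjoint_left.1 (hd y hyx g' hg') hp hp'
  have hTd : ∀ x y, x ≠ y → Disjoint (T x) (T y) := by
    intro x y hxy
    rcases trichotomous_of r x y with h | h | h
    · exact (hlt y x h).symm
    · exact absurd h hxy
    · exact hlt x y h
  have hTo : ∀ x, IsOpen (T x) := by
    intro x
    cases hx : C x with
    | none =>
      have : T x = ∅ := by
        ext p
        simp only [Set.mem_empty_iff_false, iff_false]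
        rintro ⟨g, hg, _⟩
        rw [hx] at hg
        exact absurd hg (by simp)
      rw [this]; exact isOpen_empty
    | some g =>
      have : T x = N x g := by
        ext p
        constructor
        · rintro ⟨g', hg', hp⟩
          rw [hx] at hg'
          rw [Option.some.inj hg']; exact hp
        · intro hp; exact ⟨g, hx, hp⟩
      rw [this]; exact isOpen_N x g
  have hTc : ∀ p, ∃ x, p ∈ T x := by
    intro p
    obtain ⟨x, rfl⟩ : ∃ x, proj x = p := Quotient.exists_rep p
    rcases hC x with ⟨⟨y, _, g, hg, hp⟩, _⟩ | ⟨g, hg, _⟩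
    · exact ⟨y, g, hg, hp⟩
    · exact ⟨x, g, hg, proj_mem_N.2 (self_mem_good x g)⟩
  refine ⟨Box I, T, hTo, ?_, ?_, ?_⟩
  · ext p
    simp only [Set.mem_iUnion, Set.mem_univ, iff_true]
    exact hTc p
  · intro p
    obtain ⟨x, hx⟩ := hTc p
    refine ⟨T x, (hTo x).mem_nhds hx, ?_⟩
    refine (Set.finite_singleton x).subset ?_
    intro y hy
    by_contra hne
    obtain ⟨q, hq⟩ := hy
    exact Set.disjoint_left.1 (hTd y x hne) hq.1 hq.2
  · intro x
    rcases hC x with ⟨_, hn⟩ | ⟨g, hg, ⟨a, ha⟩, _⟩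
    · have hx : proj x ∈ ⋃ a, s a := by rw [hc]; exact Set.mem_univ _
      obtain ⟨a, _⟩ := Set.mem_iUnion.1 hx
      refine ⟨a, ?_⟩
      rintro p ⟨g, hg, _⟩
      rw [hn] at hg
      exact absurd hg (by simp)
    · refine ⟨a, ?_⟩
      rintro p ⟨g', hg', hp⟩
      rw [hg] at hg'
      rw [Option.some.inj hg'] at ha
      exact ha hp

theorem para_of_MHyp (h : MHyp I) : ParacompactSpace (Nab I) := by
  classical
  obtain ⟨Θ, lo, wf, Q, hc, hmono, hall, hint, hg⟩ := h
  choose g hg using hg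
  have hρ : ∀ x : Box I, ∃ ξ, ({i | x i = ⊤} ∈ Q ξ) ∧ ∀ n : ℕ, {i | x i = n} ∈ Q ξ := by
    intro x
    obtain ⟨ξ0, h0⟩ := hall {i | x i = ⊤}
    have h1 : ∀ n : ℕ, ∃ ξ, {i | x i = n} ∈ Q ξ := fun n => hall _
    choose c hcc using h1
    obtain ⟨ξ1, h1⟩ := hc c
    exact ⟨max ξ0 ξ1, hmono _ _ (le_max_left _ _) h0,
      fun n => hmono _ _ ((h1 n).trans (le_max_right _ _)) (hcc n)⟩
  choose ρ hρ1 hρ2 using hρ
  let w : Box I → Box I → Prop := WellOrderingRel
  let f : Box I → Θ × Box I := fun x => (ρ x, x)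
  let r : Box I → Box I → Prop := fun y x => Prod.Lex (· < ·) w (f y) (f x)
  have hr : IsWellOrder (Box I) r := by
    have h1 : IsWellOrder (Θ × Box I) (Prod.Lex (· < ·) w) := inferInstance
    have hf : Function.Injective f := fun a b hab => congrArg Prod.snd hab
    exact (RelEmbedding.preimage ⟨f, hf⟩ (Prod.Lex (· < ·) w)).isWellOrder
  refine para_of_wo r hr (fun x => g (ρ x)) ?_
  intro x y hyx n hn
  have hle : ρ y ≤ ρ x := by
    have h1 : Prod.Lex (· < ·) w (ρ y, y) (ρ x, x) := hyx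
    rw [Prod.lex_def] at h1
    rcases h1 with h1 | h1
    · exact le_of_lt h1
    · exact le_of_eq h1.1
  have h1 : {i | x i = ⊤} ∩ {i | y i = n} ∈ Q (ρ x) :=
    hint _ _ (hρ1 x) _ (hmono _ _ hle (hρ2 y n))
  exact hg (ρ x) _ h1 hn n

end Helper212.Nabla
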