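import Pool.Agent.Helper212.Nabla.Card
import Pool.Agent.Helper212.Nabla.Cov
import Pool.Agent.Helper212.Nabla.Para2
import Pool.Agent.Helper212.Nabla.Para

open Cardinal Set Ordinal

namespace Helper212.Nabla

lemma card_Om : #Om = ℵ₁ := by
  rw [Cardinal.mk_toType, Ordinal.card_omega]

lemma w1_Om : W1 Om := by
  have ho : ord #Om = typeLT Om := by
    rw [card_Om, Ordinal.type_toType, Cardinal.ord_aleph]
  refine ⟨fun a => ?_, ?_⟩
  · have h1 := Cardinal.mk_Iio_lt a ho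
    rw [card_Om, ← Cardinal.succ_aleph0] at h1
    exact Cardinal.le_aleph0_iff_set_countable.1 (Order.lt_succ_iff.1 h1)
  · apply unc_of_card_eq
    rw [Cardinal.mk_univ, card_Om]

lemma aleph1_lt : ℵ₁ < (2 : Cardinal.{0}) ^ ℵ₁ := Cardinal.cantor _

section order

variable {W : Type} [LinearOrder W] [WellFoundedLT W]

theorem EE_cont (h : W1 W) (hW : #W = ℵ₁) (h1 : (2 : Cardinal.{0}) ^ ℵ₀ < 2 ^ ℵ₁)
    (h2 : (2 : Cardinal.{0}) ^ ℵ₀ < ℵ_ (ω_ 1)) : EE W (2 ^ ℵ₁) := by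
  classical
  obtain ⟨e, he⟩ := h.enum
  have hcv : Cv (Set ℕ) := by
    obtain ⟨i, hi⟩ : (2 : Cardinal.{0}) ^ ℵ₀ ∈ Set.range Cardinal.aleph :=
      Cardinal.mem_range_aleph_iff.2
        (le_of_lt (Cardinal.cantor ℵ₀))
    have h3 : i < ω_ 1 := by
      rw [← hi] at h2
      exact Cardinal.aleph_lt_aleph.1 h2
    have h4 : #(Set ℕ) = 2 ^ ℵ₀ := by rw [Cardinal.mk_set, Cardinal.mk_nat]
    refine cv_of_lt i h3 _ ?_ ?_
    · rw [h4, hi]
    · rw [h4, Cardinal.two_power_aleph0]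
  obtain ⟨S, hS1, hS2, hS3⟩ := hcv
  rw [← Cardinal.two_power_aleph0] at hS1
  let f : Set W → W → Set ℕ := fun X α => e α '' {x | x < α ∧ x ∈ X}
  have hf : ∀ X Y : Set W, ∀ x, (x ∈ X ∧ x ∉ Y) → ∀ α, f X α = f Y α → α ≤ x := by
    intro X Y x hx α hα
    by_contra hlt
    rw [not_le] at hlt
    have h3 : e α x ∈ f X α := ⟨x, ⟨hlt, hx.1⟩, rfl⟩
    rw [hα] at h3
    obtain ⟨y, ⟨hy1, hy2⟩, hy3⟩ := h3
    have h4 : y = x := he α hy1 hlt hy3
    rw [h4] at hy2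
    exact hx.2 hy2
  have hne : ∀ X Y : Set W, X ≠ Y → {α | f X α = f Y α}.Countable := by
    intro X Y hXY
    have h3 : ∃ x, (x ∈ X ∧ x ∉ Y) ∨ (x ∈ Y ∧ x ∉ X) := by
      by_contra hcon
      push Not at hcon
      apply hXY
      ext x
      exact ⟨fun hx => (hcon x).1 hx, fun hx => (hcon x).2 hx⟩
    obtain ⟨x, hx | hx⟩ := h3
    · exact (h.iic x).mono fun α hα => hf X Y x hx α hα
    · exact (h.iic x).mono fun α hα => hf Y X x hx α (Eq.symm hα)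
  have hinj : Function.Injective f := by
    intro X Y hXY
    by_contra hc
    apply h.hu
    refine (hne X Y hc).mono ?_
    intro α _
    exact congrFun hXY α
  refine EE_ad h hW (Cardinal.aleph0_lt_aleph_one.trans aleph1_lt) (Set ℕ) S (Set.range f)
    (lt_of_le_of_lt hS1 h1) hS2 hS3 ?_ ?_
  · rw [Cardinal.mk_range_eq f hinj, Cardinal.mk_set, hW]
  · rintro _ ⟨X, rfl⟩ _ ⟨Y, rfl⟩ hXY
    exact hne X Y fun hc => hXY (by rw [hc])

end order

end Helper212.Nabla
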